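import Pool.Agent.TH679.DB.Lay
import Pool.Agent.H564R3.PW.Chain

/-!
The upper bound: column by column
-/

set_option autoImplicit false
set_option linter.unusedSectionVars false

namespace Pool.Agent.TH679.DB

open Finset
open Pool.Agent.H564R3.PW (Instr runs exec L2_P L2_P_add L2_P_one L2_W L2_path)

variable {R : Type} [CommSemiring R] {W : Type} [Fintype W] [DecidableEq W] {T : ℕ}
  {ok : W → W → Prop} [DecidableRel ok]

/-- the weights of all pairs -/
noncomputable def ext (w : Edge T ok → R) (c : ℕ) (u v : W) : R :=
  if h : ∃ _ : c < T, ok u v then w ⟨(⟨c, h.choose⟩, u, v), h.choose_spec⟩ else 0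

theorem ext_edge (w : Edge T ok → R) (e : Edge T ok) : ext w e.1.1.val e.1.2.1 e.1.2.2 = w e := by
  unfold ext
  rw [dif_pos ⟨e.1.1.2, e.2⟩]

theorem ext_ne (w : Edge T ok → R) {c : ℕ} {u v : W} (h : ¬ ok u v) : ext w c u v = 0 := by
  unfold ext
  rw [dif_neg]
  rintro ⟨_, h1⟩
  exact h h1

theorem pathSum_eq (w : Edge T ok → R) :
    pathSum w = ∑ α : W, ∑ β : W, L2_P (ext w) T 0 α β := by
  have h1 := L2_path (R := R) (ext w) T 0 (fun _ => 1)
  simp only [one_mul] at h1
  rw [← h1]
  have h2 : ∑ γ : Fin (T + 1) → W, L2_W (ext w) T 0 γ =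
      ∑ γ ∈ univ.filter (fun γ : Fin (T + 1) → W =>
        ∀ i : Fin T, ok (γ i.castSucc) (γ i.succ)), L2_W (ext w) T 0 γ := by
    rw [sum_filter]
    refine sum_congr rfl fun γ _ => ?_
    split_ifs with h
    · rfl
    · push Not at h
      obtain ⟨i, hi⟩ := h
      unfold L2_W
      refine prod_eq_zero (mem_univ i) ?_
      rw [zero_add]
      exact ext_ne w hi
  rw [h2, Finset.sum_subtype (p := fun γ : Fin (T + 1) → W =>
    ∀ i : Fin T, ok (γ i.castSucc) (γ i.succ)) _ (fun x => by simp)]
  unfold pathSum
  refine sum_congr rfl fun φ _ => ?_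
  unfold L2_W
  refine prod_congr rfl fun i _ => ?_
  rw [zero_add]
  exact (ext_edge w (pe φ i)).symm

/-- the values at column `k` -/
noncomputable def dv (w : Edge T ok → R) (k : ℕ) (v : W) : R :=
  ∑ α : W, L2_P (ext w) k 0 α v

theorem dv_zero (w : Edge T ok → R) (v : W) : dv w 0 v = 1 := by
  unfold dv
  simp [L2_P]

theorem dv_succ (w : Edge T ok → R) (k : ℕ) (v : W) :
    dv w (k + 1) v = ∑ u : W, dv w k u * ext w k u v := by
  unfold dv
  simp_rw [L2_P_add, sum_mul, zero_add, L2_P_one]
  rw [sum_comm]

/-- the edges which lead to the vertex `(k + 1, v)` -/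
def inE (k : Fin T) (v : W) : Finset (Edge T ok) :=
  univ.filter fun e => e.1.1 = k ∧ e.1.2.2 = v

theorem dv_succ' (w : Edge T ok → R) (k : Fin T) (v : W) :
    dv w (k.val + 1) v = ∑ e ∈ inE k v, w e * dv w k.val e.1.2.1 := by
  rw [dv_succ]
  have h1 : ∀ u ∈ (univ : Finset W), u ∉ (inE (ok := ok) k v).image (fun e => e.1.2.1) →
      dv w k.val u * ext w k.val u v = 0 := by
    intro u _ hu
    by_cases h : ok u v
    · exfalso
      apply hu
      exact mem_image.2 ⟨⟨(k, u, v), h⟩, mem_filter.2 ⟨mem_univ _, rfl, rfl⟩, rfl⟩
    · rw [ext_ne w h, mul_zero]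
  rw [← sum_subset (subset_univ _) h1, sum_image]
  · refine sum_congr rfl fun e he => ?_
    obtain ⟨_, h2, h3⟩ := mem_filter.1 he
    have h4 := ext_edge w e
    rw [h2, h3] at h4
    rw [h4, mul_comm]
  · intro e he e' he' h
    obtain ⟨_, h2, h3⟩ := mem_filter.1 he
    obtain ⟨_, h2', h3'⟩ := mem_filter.1 he'
    apply Subtype.ext
    exact Prod.ext (h2.trans h2'.symm) (Prod.ext h (h3.trans h3'.symm))

/-- the instructions for the vertex `(k + 1, v)`; the values of column `k` are in array `b` -/
noncomputable def vprog (R : Type) [CommSemiring R] (k : Fin T) (b : Bool) (v : W) :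
    List (Instr R (Edge T ok) (Option (Bool × W))) :=
  Instr.const (some (!b, v)) 0 :: ((inE k v).toList).flatMap fun e =>
      [Instr.load none e, Instr.mul none none (some (b, e.1.2.1)),
        Instr.add (some (!b, v)) (some (!b, v)) none]

theorem runs_append' {X ρ : Type} [DecidableEq ρ] (w : X → R) (p q : List (Instr R X ρ))
    (V : ρ → R) : runs w (p ++ q) V = runs w q (runs w p V) := by
  unfold runs
  rw [List.foldl_append]

theorem inner_run (w : Edge T ok → R) (b : Bool) (v : W) : ∀ (l : List (Edge T ok))
    (V : Option (Bool × W) → R),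
    (∀ x, x ≠ none → x ≠ some (!b, v) → runs w (l.flatMap fun e =>
      [Instr.load none e, Instr.mul none none (some (b, e.1.2.1)),
        Instr.add (some (!b, v)) (some (!b, v)) none]) V x = V x) ∧
    runs w (l.flatMap fun e =>
      [Instr.load none e, Instr.mul none none (some (b, e.1.2.1)),
        Instr.add (some (!b, v)) (some (!b, v)) none]) V (some (!b, v)) =
      V (some (!b, v)) + (l.map fun e => w e * V (some (b, e.1.2.1))).sum := by
  intro l
  induction l with
  | nil =>
    intro V
    exact ⟨fun _ _ _ => rfl, by simp [runs]⟩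
  | cons e l ih =>
    intro V
    rw [List.flatMap_cons, runs_append']
    obtain ⟨V₁, hV₁⟩ : ∃ V₁, V₁ = runs w
      [(Instr.load none e : Instr R (Edge T ok) (Option (Bool × W))),
        Instr.mul none none (some (b, e.1.2.1)),
        Instr.add (some (!b, v)) (some (!b, v)) none] V := ⟨_, rfl⟩
    rw [← hV₁]
    have n1 : (some (!b, v) : Option (Bool × W)) ≠ none := Option.some_ne_none _
    have n2 : ∀ u : W, (some (b, u) : Option (Bool × W)) ≠ none := fun _ => Option.some_ne_none _
    have n3 : ∀ u : W, (some (b, u) : Option (Bool × W)) ≠ some (!b, v) := by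
      intro u h
      have h1 := congrArg Prod.fst (Option.some_injective _ h)
      simp at h1
    have h1 : ∀ x, V₁ x = if x = some (!b, v) then V (some (!b, v)) + w e * V (some (b, e.1.2.1))
        else if x = none then w e * V (some (b, e.1.2.1)) else V x := by
      intro x
      rw [hV₁]
      unfold runs
      simp only [List.foldl_cons, List.foldl_nil, Instr.run]
      simp only [Function.update_apply, n1, n2, n3, n1.symm, if_true, if_false]
      by_cases h5 : x = some (!b, v)
      · rw [if_pos h5, if_pos h5]
      · rw [if_neg h5, if_neg h5]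
        by_cases h6 : x = none
        · simp only [if_pos h6]
        · simp only [if_neg h6]
    obtain ⟨g1, g2⟩ := ih V₁
    constructor
    · intro x hx hx'
      rw [g1 x hx hx', h1, if_neg hx', if_neg hx]
    · rw [g2, h1 (some (!b, v)), if_pos rfl, List.map_cons, List.sum_cons, add_assoc]
      congr 2
      refine congrArg List.sum (List.map_congr_left fun e' _ => ?_)
      rw [h1, if_neg (n3 _), if_neg (n2 _)]

theorem vprog_run (w : Edge T ok → R) (k : Fin T) (b : Bool) (v : W)
    (V : Option (Bool × W) → R) (hV : ∀ u, V (some (b, u)) = dv w k.val u) :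
    (∀ u, runs w (vprog R k b v) V (some (b, u)) = V (some (b, u))) ∧
    (∀ u, u ≠ v → runs w (vprog R k b v) V (some (!b, u)) = V (some (!b, u))) ∧
    runs w (vprog R k b v) V (some (!b, v)) = dv w (k.val + 1) v := by
  have hbb : ∀ u u' : W, (some (b, u) : Option (Bool × W)) ≠ some (!b, u') := by
    intro u u' h
    have h1 := congrArg Prod.fst (Option.some_injective _ h)
    simp at h1
  obtain ⟨g1, g2⟩ := inner_run w b v (inE k v).toList (Function.update V (some (!b, v)) 0)
  refine ⟨fun u => ?_, fun u hu => ?_, ?_⟩
  · refine (g1 _ (Option.some_ne_none _) (hbb u v)).trans ?_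
    rw [Function.update_of_ne (hbb u v)]
  · have h1 : (some (!b, u) : Option (Bool × W)) ≠ some (!b, v) := fun h =>
      hu (congrArg Prod.snd (Option.some_injective _ h))
    refine (g1 _ (Option.some_ne_none _) h1).trans ?_
    rw [Function.update_of_ne h1]
  · refine g2.trans ?_
    rw [Function.update_self, zero_add, dv_succ', ← Finset.sum_map_toList]
    refine congrArg List.sum (List.map_congr_left fun e _ => ?_)
    rw [Function.update_of_ne (hbb _ _), hV]

theorem flatMap_length_le {α β : Type} (f : α → List β) (c : ℕ) (h : ∀ a, (f a).length ≤ c)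
    (l : List α) : (l.flatMap f).length ≤ l.length * c := by
  induction l with
  | nil => simp
  | cons a l ih =>
    rw [List.flatMap_cons, List.length_append, List.length_cons]
    have := h a
    calc (f a).length + (l.flatMap f).length ≤ c + l.length * c := Nat.add_le_add this ih
      _ = (l.length + 1) * c := by ring

theorem vprog_length {D : ℕ} (hD : ∀ (k : Fin T) (v : W), (inE (ok := ok) k v).card ≤ D)
    (k : Fin T) (b : Bool) (v : W) : (vprog (ok := ok) R k b v).length ≤ 3 * D + 1 := by
  unfold vprog
  rw [List.length_cons]
  have h1 := flatMap_length_le (fun e : Edge T ok =>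
    [(Instr.load none e : Instr R (Edge T ok) (Option (Bool × W))),
      Instr.mul none none (some (b, e.1.2.1)),
        Instr.add (some (!b, v)) (some (!b, v)) none]) 3 (fun _ => by simp) (inE k v).toList
  rw [Finset.length_toList] at h1
  have h2 := hD k v
  omega

/-- the instructions for several vertices of a column -/
theorem list_run (w : Edge T ok → R) (k : Fin T) (b : Bool) : ∀ (l : List W)
    (V : Option (Bool × W) → R), (∀ u, V (some (b, u)) = dv w k.val u) →
      (∀ u, runs w (l.flatMap (vprog R k b)) V (some (b, u)) = dv w k.val u) ∧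
      ∀ v, (v ∈ l ∨ V (some (!b, v)) = dv w (k.val + 1) v) →
        runs w (l.flatMap (vprog R k b)) V (some (!b, v)) = dv w (k.val + 1) v := by
  intro l
  induction l with
  | nil =>
    intro V hV
    refine ⟨hV, fun v hv => ?_⟩
    rcases hv with hv | hv
    · exact absurd hv List.not_mem_nil
    · exact hv
  | cons u l ih =>
    intro V hV
    rw [List.flatMap_cons, runs_append']
    obtain ⟨g1, g2, g3⟩ := vprog_run w k b u V hV
    obtain ⟨V₁, hV₁⟩ : ∃ V₁, V₁ = runs w (vprog R k b u) V := ⟨_, rfl⟩
    rw [← hV₁] at g1 g2 g3 ⊢
    obtain ⟨k1, k2⟩ := ih V₁ (fun u => by rw [g1 u, hV u])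
    refine ⟨k1, fun v hv => k2 v ?_⟩
    by_cases h : v = u
    · right
      rw [h]
      exact g3
    · rcases hv with hv | hv
      · rcases List.mem_cons.1 hv with h1 | h1
        · exact absurd h1 h
        · exact Or.inl h1
      · right
        rw [g2 v h]
        exact hv

/-- the array for column `k` -/
def arr (k : ℕ) : Bool := decide (k % 2 = 1)

theorem arr_succ (k : ℕ) : arr (k + 1) = !arr k := by
  unfold arr
  rcases Nat.mod_two_eq_zero_or_one k with h | h
  · rw [show (k + 1) % 2 = 1 by omega, h]
    rfl
  · rw [show (k + 1) % 2 = 0 by omega, h]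
    rfl

/-- the instructions for column `k + 1` -/
noncomputable def stage (R : Type) [CommSemiring R] (k : Fin T) :
    List (Instr R (Edge T ok) (Option (Bool × W))) :=
  (univ : Finset W).toList.flatMap (vprog R k (arr k.val))

theorem stage_run (w : Edge T ok → R) (k : Fin T) (V : Option (Bool × W) → R)
    (hV : ∀ v, V (some (arr k.val, v)) = dv w k.val v) (v : W) :
    runs w (stage R k) V (some (arr (k.val + 1), v)) = dv w (k.val + 1) v := by
  rw [arr_succ]
  exact (list_run w k (arr k.val) _ V hV).2 v (Or.inl (by simp))

theorem stage_length {D : ℕ} (hD : ∀ (k : Fin T) (v : W), (inE (ok := ok) k v).card ≤ D)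
    (k : Fin T) : (stage (ok := ok) R k).length ≤ Fintype.card W * (3 * D + 1) := by
  unfold stage
  have h := flatMap_length_le (vprog (ok := ok) R k (arr k.val)) (3 * D + 1)
    (vprog_length hD k _) (univ : Finset W).toList
  rwa [Finset.length_toList, card_univ] at h

/-- the first registers -/
noncomputable def initp (R : Type) [CommSemiring R] (T : ℕ) (ok : W → W → Prop) :
    List (Instr R (Edge T ok) (Option (Bool × W))) :=
  (univ : Finset W).toList.map fun v => Instr.const (some (false, v)) 1

theorem initp_run (w : Edge T ok → R) : ∀ (l : List W) (V : Option (Bool × W) → R) (v : W),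
    (v ∈ l ∨ V (some (false, v)) = 1) →
      runs w (l.map fun v =>
        (Instr.const (some (false, v)) 1 : Instr R (Edge T ok) (Option (Bool × W)))) V
        (some (false, v)) = 1 := by
  intro l
  induction l with
  | nil =>
    intro V v hv
    rcases hv with hv | hv
    · exact absurd hv List.not_mem_nil
    · exact hv
  | cons u l ih =>
    intro V v hv
    rw [List.map_cons]
    show runs w (l.map _) (Function.update V (some (false, u)) 1) (some (false, v)) = 1
    refine ih _ v ?_
    by_cases h : v = u
    · right
      rw [h, Function.update_self]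
    · rcases hv with hv | hv
      · rcases List.mem_cons.1 hv with h1 | h1
        · exact absurd h1 h
        · exact Or.inl h1
      · right
        rw [Function.update_of_ne (fun h' => h (congrArg Prod.snd (Option.some_injective _ h')))]
        exact hv

/-- the first `k` columns -/
noncomputable def prog (R : Type) [CommSemiring R] (T : ℕ) (ok : W → W → Prop) [DecidableRel ok] :
    ℕ → List (Instr R (Edge T ok) (Option (Bool × W)))
  | 0 => initp R T ok
  | k + 1 => prog R T ok k ++ (if h : k < T then stage R ⟨k, h⟩ else [])

theorem prog_run (w : Edge T ok → R) : ∀ k ≤ T, ∀ v : W,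
    exec w (prog R T ok k) (some (arr k, v)) = dv w k v := by
  intro k
  induction k with
  | zero =>
    intro _ v
    rw [dv_zero]
    exact initp_run w (univ : Finset W).toList _ v (Or.inl (by simp))
  | succ k ih =>
    intro hk v
    show exec w (prog R T ok k ++ _) (some (arr (k + 1), v)) = _
    rw [dif_pos (show k < T by omega)]
    unfold exec
    rw [runs_append']
    exact stage_run w ⟨k, by omega⟩ _ (fun v => ih (by omega) v) v

theorem prog_length {D : ℕ} (hD : ∀ (k : Fin T) (v : W), (inE (ok := ok) k v).card ≤ D) :
    ∀ k, (prog R T ok k).length ≤ Fintype.card W + k * (Fintype.card W * (3 * D + 1)) := by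
  intro k
  induction k with
  | zero =>
    show (initp R T ok).length ≤ _
    unfold initp
    rw [List.length_map, Finset.length_toList, card_univ]
    omega
  | succ k ih =>
    show (prog R T ok k ++ _).length ≤ _
    rw [List.length_append]
    split_ifs with h
    · have h1 := stage_length (R := R) hD (⟨k, h⟩ : Fin T)
      calc _ ≤ (Fintype.card W + k * (Fintype.card W * (3 * D + 1))) +
            Fintype.card W * (3 * D + 1) := Nat.add_le_add ih h1
        _ = Fintype.card W + (k + 1) * (Fintype.card W * (3 * D + 1)) := by ring
    · rw [List.length_nil, add_zero]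
      refine ih.trans (Nat.add_le_add_left (Nat.mul_le_mul_right _ (by omega)) _)

/-- the sum of the registers -/
noncomputable def sump (R : Type) [CommSemiring R] (T : ℕ) (ok : W → W → Prop) :
    List (Instr R (Edge T ok) (Option (Bool × W))) :=
  Instr.const none 0 :: (univ : Finset W).toList.map fun v =>
    Instr.add none none (some (arr T, v))

theorem sump_run (w : Edge T ok → R) : ∀ (l : List W) (V : Option (Bool × W) → R),
    runs w (l.map fun v =>
      (Instr.add none none (some (arr T, v)) : Instr R (Edge T ok) (Option (Bool × W)))) V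
        none = V none + (l.map fun v => V (some (arr T, v))).sum := by
  intro l
  induction l with
  | nil => intro V; simp [runs]
  | cons u l ih =>
    intro V
    rw [List.map_cons]
    show runs w (l.map _) (Function.update V none (V none + V (some (arr T, u)))) none = _
    rw [ih, Function.update_self, List.map_cons, List.sum_cons, add_assoc]
    congr 2

/-- With `2 |W| + 1` registers one can go column by column. -/
theorem upper (R : Type) [CommSemiring R] (T : ℕ) (ok : W → W → Prop) [DecidableRel ok] {D : ℕ}
    (hD : ∀ (k : Fin T) (v : W), (inE (ok := ok) k v).card ≤ D) :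
    ∃ p : List (Instr R (Edge T ok) (Option (Bool × W))),
      p.length ≤ (3 * D + 1) * (T * Fintype.card W) + 2 * Fintype.card W + 1 ∧
      ∀ w : Edge T ok → R, exec w p none = pathSum w := by
  refine ⟨prog R T ok T ++ sump R T ok, ?_, fun w => ?_⟩
  · rw [List.length_append]
    have h1 := prog_length (R := R) hD T
    have h2 : (sump R T ok).length = Fintype.card W + 1 := by
      unfold sump
      rw [List.length_cons, List.length_map, Finset.length_toList, card_univ]
    rw [h2]
    calc _ ≤ (Fintype.card W + T * (Fintype.card W * (3 * D + 1))) + (Fintype.card W + 1) :=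
          Nat.add_le_add_right h1 _
      _ = _ := by ring
  · unfold exec
    rw [runs_append']
    show runs w ((univ : Finset W).toList.map _)
      (Function.update (exec w (prog R T ok T)) none 0) none = _
    rw [sump_run, Function.update_self, zero_add, pathSum_eq, sum_comm, ← Finset.sum_map_toList]
    refine congrArg List.sum (List.map_congr_left fun v _ => ?_)
    rw [Function.update_of_ne (Option.some_ne_none _)]
    exact prog_run w T le_rfl v

end Pool.Agent.TH679.DB
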