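import Pool.Agent.TH679.PL.Asym

/-!
The asymptotic forms of the lower bound
-/

set_option autoImplicit false

namespace Pool.Agent.TH679.DB

open Filter Asymptotics
open Pool.Agent.TH679.PL (kap kap_ge clog_le_logb)

theorem exists_large (ε : ℝ) (hε : 0 < ε) : ∃ d₀ : ℝ, ∀ x : ℝ, d₀ ≤ x →
    4 * x * (x ^ 2 + 2) ≤ (2 : ℝ) ^ (ε / 4 * x) ∧ 12 / ε ≤ x ∧ 6 ≤ x ∧
      3 ≤ (2 : ℝ) ^ (ε / 8 * x) := by
  have hb : 0 < ε / 4 * Real.log 2 := mul_pos (by linarith) (Real.log_pos (by norm_num))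
  have h1 : (fun x : ℝ => 4 * (x ^ 3 + 2 * x ^ 1)) =o[atTop]
      fun x => Real.exp (ε / 4 * Real.log 2 * x) := by
    refine IsLittleO.const_mul_left (IsLittleO.add ?_ ?_) 4
    · exact isLittleO_pow_exp_pos_mul_atTop 3 hb
    · exact (isLittleO_pow_exp_pos_mul_atTop 1 hb).const_mul_left 2
  have h2 := h1.bound (c := 1) one_pos
  obtain ⟨l₁, h3⟩ := eventually_atTop.1 h2
  refine ⟨max l₁ (max (12 / ε) (max 6 (16 / ε))), fun l hl => ⟨?_, ?_, ?_, ?_⟩⟩
  · have h4 := h3 l ((le_max_left _ _).trans hl)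
    rw [one_mul, Real.norm_eq_abs, Real.norm_eq_abs, abs_of_pos (Real.exp_pos _)] at h4
    have h5 := (le_abs_self _).trans h4
    have h6 : 4 * l * (l ^ 2 + 2) = 4 * (l ^ 3 + 2 * l ^ 1) := by ring
    rw [h6]
    refine h5.trans (le_of_eq ?_)
    rw [Real.rpow_def_of_pos (by norm_num)]
    congr 1
    ring
  · exact (le_max_left _ _).trans ((le_max_right _ _).trans hl)
  · exact (le_max_left _ _).trans ((le_max_right _ _).trans ((le_max_right _ _).trans hl))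
  · have h4 : 16 / ε ≤ l :=
      (le_max_right _ _).trans ((le_max_right _ _).trans ((le_max_right _ _).trans hl))
    rw [div_le_iff₀ hε] at h4
    calc (3 : ℝ) ≤ 2 ^ (2 : ℝ) := by norm_num
      _ ≤ _ := Real.rpow_le_rpow_of_exponent_le (by norm_num) (by nlinarith)

theorem arith1 {ε x κ : ℝ} (hy : 12 ≤ ε * x)
    (h : ε / 4 * x * (ε / 2 * x / 2 - 1) ≤ ε / 4 * x * κ)
    (h' : ε / 4 * x * κ ≤ 1 + ε ^ 2 / 64 * x ^ 2) : False := by
  nlinarith [mul_self_nonneg (ε * x - 12)]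

theorem arith2 {κ d lc k lL a : ℝ} (h1 : 9 * a * d < κ * (d - lc - k))
    (h2 : d * κ ≤ 1 + lL + (lc + k) * κ) (h3 : lL ≤ 8 * a * d) (h4 : 1 ≤ a * d) : False := by
  have h5 : κ * (d - lc - k) = d * κ - (lc + k) * κ := by ring
  rw [h5] at h1
  linarith

theorem arith3 {A a s d lc k ν : ℝ} (h1 : d - lc - k ≤ 36 * a * s) (h2 : lc ≤ A + (2 * s + 2))
    (h3 : ν ≤ d + 7 * s) (h4 : A * 1 ≤ A * s) (h5 : 1 ≤ s) : ν - (11 + 36 * a + A) * s ≤ k := by
  have h6 : (11 + 36 * a + A) * s = 11 * s + 36 * a * s + A * s := by ring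
  rw [h6]
  linarith

/-- The lower bound for the number of steps, in the asymptotic form. -/
theorem steps_ge {ε : ℝ} (hε : 0 < ε) (hε1 : ε ≤ 1) {d₀ : ℝ}
    (hd₀ : ∀ x : ℝ, d₀ ≤ x → 4 * x * (x ^ 2 + 2) ≤ (2 : ℝ) ^ (ε / 4 * x) ∧ 12 / ε ≤ x ∧ 6 ≤ x ∧
      3 ≤ (2 : ℝ) ^ (ε / 8 * x))
    {d n N : ℕ} (hd : d₀ ≤ (d : ℝ)) (hn : n = ⌈(2 : ℝ) ^ (ε / 2 * d)⌉₊)
    (hN : N = (d * n + 1) * 2 ^ d) :
    (∀ K L : ℕ, 1 ≤ L → (K : ℝ) ≤ (N : ℝ) ^ (1 - ε) →
      (2 ^ d) ^ kap n ≤ 2 * L * ((Nat.clog 2 L + 1) * K) ^ kap n →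
      (N : ℝ) ^ (ε ^ 2 / 576 * Real.logb 2 N) ≤ L) ∧
    (2 * 2 ^ d + 1 : ℝ) ≤ (N : ℝ) ^ (1 - ε / 4) := by
  obtain ⟨g1, g2, g3, g4⟩ := hd₀ d hd
  have hd6 : 6 ≤ d := by exact_mod_cast g3
  have hd0 : (0 : ℝ) < d := by linarith
  have hX1 : (1 : ℝ) ≤ (2 : ℝ) ^ (ε / 2 * d) := Real.one_le_rpow (by norm_num) (by positivity)
  have hn1 : (2 : ℝ) ^ (ε / 2 * d) ≤ n := by rw [hn]; exact Nat.le_ceil _
  have hn2 : (n : ℝ) ≤ 2 * (2 : ℝ) ^ (ε / 2 * d) := by
    have := Nat.ceil_lt_add_one (a := (2 : ℝ) ^ (ε / 2 * d)) (by positivity)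
    rw [← hn] at this
    linarith
  have hn0 : (1 : ℝ) ≤ n := hX1.trans hn1
  have hq : ((2 ^ d : ℕ) : ℝ) = (2 : ℝ) ^ (d : ℝ) := by
    rw [Nat.cast_pow, Nat.cast_ofNat, Real.rpow_natCast]
  have hNr : (N : ℝ) = (d * n + 1) * (2 : ℝ) ^ (d : ℝ) := by
    rw [hN, Nat.cast_mul, hq]
    push_cast
    ring
  -- upper bounds for N
  have hdn : (d : ℝ) * n + 1 ≤ 4 * d * (2 : ℝ) ^ (ε / 2 * d) := by
    have e1 : (1 : ℝ) ≤ d * n := by nlinarith
    have e2 : (d : ℝ) * n ≤ d * (2 * (2 : ℝ) ^ (ε / 2 * d)) :=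
      mul_le_mul_of_nonneg_left hn2 hd0.le
    linarith
  have hNle : (N : ℝ) ≤ 4 * d * (2 : ℝ) ^ ((1 + ε / 2) * d) := by
    rw [hNr]
    have e1 : (4 : ℝ) * d * (2 : ℝ) ^ ((1 + ε / 2) * d) =
        4 * d * (2 : ℝ) ^ (ε / 2 * d) * (2 : ℝ) ^ (d : ℝ) := by
      rw [mul_assoc (4 * (d : ℝ)), ← Real.rpow_add (by norm_num)]
      congr 2
      ring
    rw [e1]
    exact mul_le_mul_of_nonneg_right hdn (by positivity)
  have hNge : (2 : ℝ) ^ ((1 + ε / 2) * d) ≤ N := by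
    rw [hNr]
    have e1 : (2 : ℝ) ^ ((1 + ε / 2) * d) = (2 : ℝ) ^ (ε / 2 * d) * (2 : ℝ) ^ (d : ℝ) := by
      rw [← Real.rpow_add (by norm_num)]
      congr 1
      ring
    rw [e1]
    refine mul_le_mul_of_nonneg_right ?_ (by positivity)
    have e2 : (1 : ℝ) * n ≤ d * n := mul_le_mul_of_nonneg_right (by linarith) (by linarith)
    linarith
  have hN1 : (1 : ℝ) ≤ N := le_trans (Real.one_le_rpow (by norm_num) (by positivity)) hNge
  have hN0 : (0 : ℝ) < N := by linarith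
  obtain ⟨ν, hν⟩ : ∃ ν, ν = Real.logb 2 N := ⟨_, rfl⟩
  have hN2 : (N : ℝ) = 2 ^ ν := by
    rw [hν]
    exact (Real.rpow_logb (by norm_num) (by norm_num) hN0).symm
  have hν0 : 0 ≤ ν := by rw [hν]; exact Real.logb_nonneg (by norm_num) hN1
  have h4d : (4 * (d : ℝ)) ≤ 2 ^ ((d : ℝ)) := by
    have e1 : 4 * d ≤ 2 ^ d := by
      clear * - hd6
      induction d, hd6 using Nat.le_induction with
      | base => norm_num
      | succ k hk ih => rw [pow_succ]; omega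
    have e2 : ((4 * d : ℕ) : ℝ) ≤ ((2 ^ d : ℕ) : ℝ) := by exact_mod_cast e1
    rw [hq] at e2
    push_cast at e2
    exact e2
  have hν2 : ν ≤ 3 * d := by
    have e1 : (2 : ℝ) ^ ν ≤ 2 ^ (3 * (d : ℝ)) := by
      rw [← hN2]
      refine hNle.trans ?_
      calc 4 * (d : ℝ) * (2 : ℝ) ^ ((1 + ε / 2) * d) ≤ 2 ^ ((d : ℝ)) * (2 : ℝ) ^ (2 * (d : ℝ)) := by
            refine mul_le_mul h4d (Real.rpow_le_rpow_of_exponent_le (by norm_num) ?_)
              (by positivity) (by positivity)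
            exact mul_le_mul_of_nonneg_right (by linarith) hd0.le
        _ = _ := by
            rw [← Real.rpow_add (by norm_num)]
            congr 1
            ring
    exact (Real.rpow_le_rpow_left_iff (by norm_num)).1 e1
  refine ⟨?_, ?_⟩
  · intro K L hL hK hlaw
    by_contra hlt
    push Not at hlt
    rw [← hν] at hlt
    have hL0 : (0 : ℝ) < L := by exact_mod_cast hL
    -- the number of steps
    have hLlog : Real.logb 2 L ≤ ε ^ 2 / 64 * (d : ℝ) ^ 2 := by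
      have e1 : (L : ℝ) ≤ 2 ^ (ε ^ 2 / 576 * ν ^ 2) := by
        refine hlt.le.trans (le_of_eq ?_)
        rw [hN2, ← Real.rpow_mul (by norm_num)]
        congr 1
        ring
      have e2 : Real.logb 2 L ≤ ε ^ 2 / 576 * ν ^ 2 := by
        rw [Real.logb_le_iff_le_rpow (by norm_num) hL0]
        exact e1
      have e3 : ν ^ 2 ≤ (3 * (d : ℝ)) ^ 2 := pow_le_pow_left₀ hν0 hν2 2
      have e4 : ε ^ 2 / 576 * ν ^ 2 ≤ ε ^ 2 / 576 * (3 * (d : ℝ)) ^ 2 :=
        mul_le_mul_of_nonneg_left e3 (by positivity)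
      calc _ ≤ _ := e2.trans e4
        _ = _ := by ring
    have hclog : (Nat.clog 2 L : ℝ) + 1 ≤ (d : ℝ) ^ 2 + 2 := by
      have e1 := clog_le_logb hL
      have e2 : ε ^ 2 / 64 * (d : ℝ) ^ 2 ≤ (d : ℝ) ^ 2 := by
        have : ε ^ 2 / 64 ≤ 1 := by nlinarith
        nlinarith [sq_nonneg (d : ℝ)]
      linarith
    -- the number of registers
    have hKle : (K : ℝ) ≤ 4 * d * 2 ^ ((1 - ε / 2) * d) := by
      refine hK.trans ?_
      have e0 : (N : ℝ) ^ (1 - ε) ≤ (4 * d * (2 : ℝ) ^ ((1 + ε / 2) * d)) ^ (1 - ε) :=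
        Real.rpow_le_rpow hN0.le hNle (by linarith)
      refine e0.trans ?_
      rw [Real.mul_rpow (by positivity) (by positivity), ← Real.rpow_mul (by norm_num)]
      refine mul_le_mul ?_ ?_ (by positivity) (by positivity)
      · calc (4 * (d : ℝ)) ^ (1 - ε) ≤ (4 * (d : ℝ)) ^ (1 : ℝ) :=
              Real.rpow_le_rpow_of_exponent_le (by linarith) (by linarith)
          _ = _ := Real.rpow_one _
      · refine Real.rpow_le_rpow_of_exponent_le (by norm_num) ?_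
        have : (1 + ε / 2) * d * (1 - ε) = (1 - ε / 2) * d - ε ^ 2 / 2 * d := by ring
        rw [this]
        have : 0 ≤ ε ^ 2 / 2 * (d : ℝ) := by positivity
        linarith
    have hx : ((((Nat.clog 2 L + 1) * K : ℕ)) : ℝ) ≤ 2 ^ ((1 - ε / 4) * d) := by
      push_cast
      have e1 : ((Nat.clog 2 L : ℝ) + 1) * K ≤
          ((d : ℝ) ^ 2 + 2) * (4 * d * 2 ^ ((1 - ε / 2) * d)) :=
        mul_le_mul hclog hKle (by positivity) (by positivity)
      refine e1.trans ?_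
      have e2 : ((d : ℝ) ^ 2 + 2) * (4 * d * 2 ^ ((1 - ε / 2) * d)) =
          4 * d * ((d : ℝ) ^ 2 + 2) * 2 ^ ((1 - ε / 2) * d) := by ring
      rw [e2]
      have e3 : (2 : ℝ) ^ ((1 - ε / 4) * d) = 2 ^ (ε / 4 * d) * 2 ^ ((1 - ε / 2) * d) := by
        rw [← Real.rpow_add (by norm_num)]
        congr 1
        ring
      rw [e3]
      exact mul_le_mul_of_nonneg_right g1 (by positivity)
    -- the law
    obtain ⟨κ, hκ⟩ : ∃ κ, κ = kap n := ⟨_, rfl⟩
    rw [← hκ] at hlaw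
    have hlaw' : ((2 : ℝ) ^ (d : ℝ)) ^ κ ≤ 2 * L * (2 ^ ((1 - ε / 4) * d)) ^ κ := by
      have e1 : (((2 ^ d) ^ κ : ℕ) : ℝ) ≤
          ((2 * L * ((Nat.clog 2 L + 1) * K) ^ κ : ℕ) : ℝ) := by
        exact_mod_cast hlaw
      rw [Nat.cast_pow, hq, Nat.cast_mul, Nat.cast_pow, Nat.cast_mul, Nat.cast_ofNat] at e1
      refine e1.trans (mul_le_mul_of_nonneg_left ?_ (by positivity))
      exact pow_le_pow_left₀ (Nat.cast_nonneg _) hx κ
    have hfin : ε / 4 * d * κ ≤ 1 + ε ^ 2 / 64 * (d : ℝ) ^ 2 := by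
      have e1 : ((2 : ℝ) ^ (d : ℝ)) ^ κ = 2 ^ (ε / 4 * d * κ) * (2 ^ ((1 - ε / 4) * d)) ^ κ := by
        rw [← Real.rpow_natCast, ← Real.rpow_natCast, ← Real.rpow_mul (by norm_num),
          ← Real.rpow_mul (by norm_num), ← Real.rpow_add (by norm_num)]
        congr 1
        ring
      rw [e1] at hlaw'
      have e2 : (2 : ℝ) ^ (ε / 4 * d * κ) ≤ 2 * L := le_of_mul_le_mul_right hlaw' (by positivity)
      have e3 : Real.logb 2 ((2 : ℝ) ^ (ε / 4 * d * κ)) ≤ Real.logb 2 (2 * L) :=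
        Real.logb_le_logb_of_le (by norm_num) (by positivity) e2
      rw [Real.logb_rpow (by norm_num) (by norm_num), Real.logb_mul (by norm_num) hL0.ne',
        Real.logb_self_eq_one (by norm_num)] at e3
      linarith
    have hκge : ε / 2 * d / 2 - 1 ≤ κ := by
      rw [hκ]
      exact kap_ge hn1
    have hεl : 12 ≤ ε * d := by
      rw [div_le_iff₀ hε] at g2
      linarith
    exact arith1 hεl (mul_le_mul_of_nonneg_left hκge (by positivity)) hfin
  · have e1 : (2 * (2 : ℝ) ^ d + 1) ≤ 3 * 2 ^ (d : ℝ) := by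
      rw [← Real.rpow_natCast 2 d]
      have : (1 : ℝ) ≤ 2 ^ (d : ℝ) := Real.one_le_rpow (by norm_num) hd0.le
      linarith
    refine e1.trans ?_
    have e2 : ((2 : ℝ) ^ ((1 + ε / 2) * d)) ^ (1 - ε / 4) ≤ (N : ℝ) ^ (1 - ε / 4) :=
      Real.rpow_le_rpow (by positivity) hNge (by linarith)
    refine le_trans ?_ e2
    rw [← Real.rpow_mul (by norm_num)]
    calc 3 * (2 : ℝ) ^ (d : ℝ) ≤ 2 ^ (ε / 8 * d) * 2 ^ (d : ℝ) :=
          mul_le_mul_of_nonneg_right g4 (by positivity)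
      _ = 2 ^ (ε / 8 * d + d) := by rw [← Real.rpow_add (by norm_num)]
      _ ≤ _ := by
          refine Real.rpow_le_rpow_of_exponent_le (by norm_num) ?_
          have e3 : (1 + ε / 2) * d * (1 - ε / 4) = d + (ε / 4 - ε ^ 2 / 8) * d := by ring
          rw [e3]
          have e4 : ε / 8 * d ≤ (ε / 4 - ε ^ 2 / 8) * d :=
            mul_le_mul_of_nonneg_right (by nlinarith) hd0.le
          linarith

/-- The lower bound for the number of registers, if the number of steps is polynomial. -/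
theorem regs_ge {a : ℝ} (ha : 1 ≤ a) {d n N : ℕ} (hd : 100 ≤ d) (hn : n = 2 ^ ⌈Real.sqrt d⌉₊)
    (hN : N = (d * n + 1) * 2 ^ d) :
    (∀ K L : ℕ, 1 ≤ L → 1 ≤ K → (L : ℝ) ≤ (N : ℝ) ^ a →
      (2 ^ d) ^ kap n ≤ 2 * L * ((Nat.clog 2 L + 1) * K) ^ kap n →
      (N : ℝ) / 2 ^ ((11 + 36 * a + Real.logb 2 (24 * a)) * Real.sqrt (Real.logb 2 N)) ≤ K) ∧
    (2 * 2 ^ d + 1 : ℝ) ≤ (N : ℝ) / 2 ^ (Real.sqrt (Real.logb 2 N) / 2) := by
  have hdr : (100 : ℝ) ≤ d := by exact_mod_cast hd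
  obtain ⟨s, hs⟩ : ∃ s, s = Real.sqrt d := ⟨_, rfl⟩
  have hs10 : 10 ≤ s := by
    rw [hs]
    refine Real.le_sqrt_of_sq_le ?_
    linarith
  have hss : s ^ 2 = d := by
    rw [hs]
    exact Real.sq_sqrt (by linarith)
  obtain ⟨σ, hσ⟩ : ∃ σ, σ = ⌈Real.sqrt d⌉₊ := ⟨_, rfl⟩
  rw [← hσ] at hn
  have hσ1 : s ≤ σ := by rw [hs, hσ]; exact Nat.le_ceil _
  have hσ2 : (σ : ℝ) ≤ s + 1 := by
    rw [hs, hσ]
    exact (Nat.ceil_lt_add_one (Real.sqrt_nonneg _)).le
  have hnr : (n : ℝ) = 2 ^ (σ : ℝ) := by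
    rw [hn, Nat.cast_pow, Nat.cast_ofNat, Real.rpow_natCast]
  have hq : ((2 ^ d : ℕ) : ℝ) = (2 : ℝ) ^ (d : ℝ) := by
    rw [Nat.cast_pow, Nat.cast_ofNat, Real.rpow_natCast]
  have hNr : (N : ℝ) = (d * n + 1) * (2 : ℝ) ^ (d : ℝ) := by
    rw [hN, Nat.cast_mul, hq]
    push_cast
    ring
  -- d ≤ 4 ^ σ
  have hd4 : (d : ℝ) ≤ 2 ^ (2 * (σ : ℝ)) := by
    have e1 : (σ : ℝ) ≤ 2 ^ (σ : ℝ) := by
      have : σ ≤ 2 ^ σ := Nat.lt_two_pow_self.le
      have e2 : (σ : ℝ) ≤ ((2 ^ σ : ℕ) : ℝ) := by exact_mod_cast this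
      rw [Nat.cast_pow, Nat.cast_ofNat, ← Real.rpow_natCast] at e2
      exact e2
    calc (d : ℝ) = s ^ 2 := hss.symm
      _ ≤ (2 ^ (σ : ℝ)) ^ 2 := pow_le_pow_left₀ (by linarith) (hσ1.trans e1) 2
      _ = _ := by
        rw [← Real.rpow_natCast, ← Real.rpow_mul (by norm_num)]
        congr 1
        push_cast
        ring
  have hn1 : (1 : ℝ) ≤ n := by
    rw [hnr]
    exact Real.one_le_rpow (by norm_num) (by linarith)
  have hNle : (N : ℝ) ≤ 2 ^ (d + 7 * s) := by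
    rw [hNr]
    have e1 : (d : ℝ) * n + 1 ≤ 2 ^ (1 + 3 * (σ : ℝ)) := by
      have e2 : (1 : ℝ) ≤ d * n := by nlinarith
      calc (d : ℝ) * n + 1 ≤ 2 * (d * n) := by linarith
        _ ≤ 2 * (2 ^ (2 * (σ : ℝ)) * 2 ^ (σ : ℝ)) := by
            rw [hnr]
            gcongr
        _ = _ := by
            rw [Real.rpow_add (by norm_num), Real.rpow_one, ← Real.rpow_add (by norm_num)]
            congr 2
            ring
    calc _ ≤ (2 : ℝ) ^ (1 + 3 * (σ : ℝ)) * 2 ^ (d : ℝ) :=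
          mul_le_mul_of_nonneg_right e1 (by positivity)
      _ = 2 ^ (1 + 3 * (σ : ℝ) + d) := by rw [← Real.rpow_add (by norm_num)]
      _ ≤ _ := Real.rpow_le_rpow_of_exponent_le (by norm_num) (by linarith)
  have hNge : (2 : ℝ) ^ (d : ℝ) ≤ N := by
    rw [hNr]
    have : (0 : ℝ) ≤ d * n := by positivity
    have e1 : (0 : ℝ) < 2 ^ (d : ℝ) := by positivity
    nlinarith
  have hN1 : (1 : ℝ) ≤ N := le_trans (Real.one_le_rpow (by norm_num) (by positivity)) hNge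
  have hN0 : (0 : ℝ) < N := by linarith
  obtain ⟨ν, hν⟩ : ∃ ν, ν = Real.logb 2 N := ⟨_, rfl⟩
  have hN2 : (N : ℝ) = 2 ^ ν := by
    rw [hν]
    exact (Real.rpow_logb (by norm_num) (by norm_num) hN0).symm
  have hν1 : (d : ℝ) ≤ ν := by
    rw [hN2] at hNge
    exact (Real.rpow_le_rpow_left_iff (by norm_num)).1 hNge
  have hν2 : ν ≤ d + 7 * s := by
    rw [hN2] at hNle
    exact (Real.rpow_le_rpow_left_iff (by norm_num)).1 hNle
  have hsν : s ≤ Real.sqrt ν := by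
    rw [hs]
    exact Real.sqrt_le_sqrt hν1
  rw [← hν]
  refine ⟨?_, ?_⟩
  · intro K L hL hK hLN hlaw
    have hL0 : (0 : ℝ) < L := by exact_mod_cast hL
    have hK0 : (0 : ℝ) < K := by exact_mod_cast hK
    obtain ⟨k, hk⟩ : ∃ k, k = Real.logb 2 K := ⟨_, rfl⟩
    have hKk : (K : ℝ) = 2 ^ k := by
      rw [hk]
      exact (Real.rpow_logb (by norm_num) (by norm_num) hK0).symm
    have hLlog : Real.logb 2 L ≤ 8 * a * d := by
      have e1 : Real.logb 2 L ≤ a * ν := by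
        rw [Real.logb_le_iff_le_rpow (by norm_num) hL0]
        refine hLN.trans (le_of_eq ?_)
        rw [hN2, ← Real.rpow_mul (by norm_num)]
        congr 1
        ring
      have e2 : ν ≤ 8 * d := by nlinarith
      nlinarith
    have hclog : (Nat.clog 2 L : ℝ) + 1 ≤ 24 * a * d := by
      have e1 := clog_le_logb hL
      nlinarith
    have hc0 : (0 : ℝ) < (Nat.clog 2 L : ℝ) + 1 := by positivity
    have hlc : Real.logb 2 ((Nat.clog 2 L : ℝ) + 1) ≤ Real.logb 2 (24 * a) + (2 * s + 2) := by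
      calc Real.logb 2 ((Nat.clog 2 L : ℝ) + 1) ≤ Real.logb 2 (24 * a * d) :=
            Real.logb_le_logb_of_le (by norm_num) hc0 hclog
        _ = Real.logb 2 (24 * a) + Real.logb 2 d :=
            Real.logb_mul (by positivity) (by positivity)
        _ ≤ _ := by
            have e1 : Real.logb 2 d ≤ 2 * (σ : ℝ) := by
              rw [Real.logb_le_iff_le_rpow (by norm_num) (by linarith)]
              exact hd4
            linarith
    obtain ⟨lc, hlc'⟩ : ∃ lc, lc = Real.logb 2 ((Nat.clog 2 L : ℝ) + 1) := ⟨_, rfl⟩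
    rw [← hlc'] at hlc
    obtain ⟨κ, hκ⟩ : ∃ κ, κ = kap n := ⟨_, rfl⟩
    rw [← hκ] at hlaw
    have hlaw' : (d : ℝ) * κ ≤ 1 + Real.logb 2 L + (lc + k) * κ := by
      have e1 : (((2 ^ d) ^ κ : ℕ) : ℝ) ≤
          ((2 * L * ((Nat.clog 2 L + 1) * K) ^ κ : ℕ) : ℝ) := by
        exact_mod_cast hlaw
      rw [Nat.cast_pow, hq, Nat.cast_mul, Nat.cast_pow, Nat.cast_mul, Nat.cast_ofNat] at e1
      have e2 := Real.logb_le_logb_of_le (b := 2) (by norm_num) (by positivity) e1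
      have e3 : ((((Nat.clog 2 L + 1) * K : ℕ)) : ℝ) = 2 ^ (lc + k) := by
        push_cast
        rw [Real.rpow_add (by norm_num), ← hKk, hlc',
          Real.rpow_logb (by norm_num) (by norm_num) hc0]
      rw [e3, ← Real.rpow_natCast, ← Real.rpow_mul (by norm_num),
        Real.logb_rpow (by norm_num) (by norm_num), Real.logb_mul (by positivity) (by positivity),
        Real.logb_mul (by norm_num) hL0.ne', Real.logb_self_eq_one (by norm_num),
        ← Real.rpow_natCast, ← Real.rpow_mul (by norm_num),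
        Real.logb_rpow (by norm_num) (by norm_num)] at e2
      exact e2
    have hκge : s / 4 ≤ κ := by
      have e1 : (σ : ℝ) / 2 - 1 ≤ κ := by
        rw [hκ]
        exact kap_ge hnr.symm.le
      linarith
    have hkey : (d : ℝ) - lc - k ≤ 36 * a * s := by
      by_contra hcon
      push Not at hcon
      have e1 : s / 4 * (36 * a * s) < κ * (d - lc - k) :=
        mul_lt_mul' hκge hcon (by positivity) (by linarith)
      have e2 : s / 4 * (36 * a * s) = 9 * a * d := by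
        rw [← hss]
        ring
      rw [e2] at e1
      exact arith2 e1 hlaw' hLlog (one_le_mul_of_one_le_of_one_le ha (by linarith))
    have hfin : ν - (11 + 36 * a + Real.logb 2 (24 * a)) * Real.sqrt ν ≤ k := by
      have e1 : 0 ≤ Real.logb 2 (24 * a) := Real.logb_nonneg (by norm_num) (by linarith)
      have e2 : ν - (11 + 36 * a + Real.logb 2 (24 * a)) * s ≤ k :=
        arith3 hkey hlc hν2 (mul_le_mul_of_nonneg_left (by linarith) e1) (by linarith)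
      have e3 : (11 + 36 * a + Real.logb 2 (24 * a)) * s ≤
          (11 + 36 * a + Real.logb 2 (24 * a)) * Real.sqrt ν :=
        mul_le_mul_of_nonneg_left hsν (by linarith)
      linarith
    rw [hKk, hN2, ← Real.rpow_sub (by norm_num)]
    exact Real.rpow_le_rpow_of_exponent_le (by norm_num) hfin
  · rw [le_div_iff₀ (by positivity)]
    have e1 : (2 * (2 : ℝ) ^ d + 1) ≤ 3 * 2 ^ (d : ℝ) := by
      rw [← Real.rpow_natCast 2 d]
      have : (1 : ℝ) ≤ 2 ^ (d : ℝ) := Real.one_le_rpow (by norm_num) (by linarith)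
      linarith
    have e2 : (2 : ℝ) ^ (Real.sqrt ν / 2) ≤ n := by
      rw [hnr]
      refine Real.rpow_le_rpow_of_exponent_le (by norm_num) (le_trans ?_ hσ1)
      have e3 : Real.sqrt ν ≤ 2 * s := by
        refine Real.sqrt_le_iff.2 ⟨by linarith, ?_⟩
        nlinarith
      linarith
    calc (2 * (2 : ℝ) ^ d + 1) * 2 ^ (Real.sqrt ν / 2) ≤ 3 * 2 ^ (d : ℝ) * n :=
          mul_le_mul e1 e2 (by positivity) (by positivity)
      _ ≤ (d * n + 1) * 2 ^ (d : ℝ) := by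
          have e4 : (0 : ℝ) ≤ 2 ^ (d : ℝ) := by positivity
          have e5 : (3 : ℝ) * n ≤ d * n := mul_le_mul_of_nonneg_right (by linarith) (by linarith)
          have e6 : (3 * (n : ℝ)) * 2 ^ (d : ℝ) ≤ (d * n + 1) * 2 ^ (d : ℝ) :=
            mul_le_mul_of_nonneg_right (by linarith) e4
          calc 3 * (2 : ℝ) ^ (d : ℝ) * n = (3 * (n : ℝ)) * 2 ^ (d : ℝ) := by ring
            _ ≤ _ := e6
      _ = _ := hNr.symm

end Pool.Agent.TH679.DB
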