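import Pool.Agent.H564R3.SV.HistX

/-!
Layered directed graphs: paths as sets of variables
-/

set_option autoImplicit false

namespace Pool.Agent.TH679.DB

open Finset
open Pool.Agent.H564R3.TS

variable {W : Type}

/-- The edges of the layered graph with the vertices `(c, v)`, `c = 0, ..., T` and `v : W`, in which
there is an edge from `(c, u)` to `(c + 1, v)` if `ok u v`. -/
abbrev Edge (T : ℕ) (ok : W → W → Prop) : Type := {x : Fin T × W × W // ok x.2.1 x.2.2}

/-- The paths from the first to the last column, as sequences of vertices. -/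
abbrev Path (T : ℕ) (ok : W → W → Prop) : Type :=
  {φ : Fin (T + 1) → W // ∀ i : Fin T, ok (φ i.castSucc) (φ i.succ)}

/-- edge number `i` of a path -/
def pe {T : ℕ} {ok : W → W → Prop} (φ : Path T ok) (i : Fin T) : Edge T ok :=
  ⟨(i, φ.1 i.castSucc, φ.1 i.succ), φ.2 i⟩

variable [Fintype W] [DecidableEq W] {T : ℕ} {ok : W → W → Prop} [DecidableRel ok]

/-- The sum over all paths from the first to the last column of the product of the weights of the
edges (over the tropical semiring: the length of a shortest path). -/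
def pathSum {R : Type} [CommSemiring R] (w : Edge T ok → R) : R :=
  ∑ φ : Path T ok, ∏ i : Fin T, w (pe φ i)

/-- the variables of a path -/
def pset (φ : Path T ok) : Finset (Edge T ok) := univ.image (pe φ)

/-- the position of a variable: its column -/
def pos (x : Edge T ok) : Finset (Fin T) := {x.1.1}

omit [Fintype W] [DecidableEq W] [DecidableRel ok] in
theorem pe_inj (φ : Path T ok) : Function.Injective (pe φ) := by
  intro i j h
  exact congrArg (fun x : Edge T ok => x.1.1) h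

omit [Fintype W] [DecidableRel ok] in
theorem mem_pset (φ : Path T ok) (x : Edge T ok) : x ∈ pset φ ↔ x = pe φ x.1.1 := by
  constructor
  · intro h
    obtain ⟨i, -, rfl⟩ := mem_image.mp h
    rfl
  · intro h
    rw [h]
    exact mem_image_of_mem _ (mem_univ _)

omit [Fintype W] [DecidableEq W] [DecidableRel ok] in
theorem mem_biUnion_pos (Y : Finset (Edge T ok)) (i : Fin T) :
    i ∈ Y.biUnion pos ↔ ∃ y ∈ Y, y.1.1 = i := by
  simp only [mem_biUnion, pos, mem_singleton]
  constructor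
  · rintro ⟨y, hy, rfl⟩; exact ⟨y, hy, rfl⟩
  · rintro ⟨y, hy, rfl⟩; exact ⟨y, hy, rfl⟩

omit [Fintype W] [DecidableRel ok] in
theorem mem_biUnion_sub {φ : Path T ok} {Y : Finset (Edge T ok)} (hY : Y ⊆ pset φ) (i : Fin T) :
    i ∈ Y.biUnion pos ↔ pe φ i ∈ Y := by
  rw [mem_biUnion_pos]
  constructor
  · rintro ⟨y, hy, rfl⟩
    have h1 := (mem_pset φ y).1 (hY hy)
    rwa [← h1]
  · intro h
    exact ⟨_, h, rfl⟩

omit [Fintype W] [DecidableRel ok] in
theorem path_exact (φ : Path T ok) : Exact pos 1 univ (pset φ) := by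
  refine ⟨fun x _ => by simp [pos], fun x _ => subset_univ _, ?_, ?_⟩
  · intro x hx y hy hne
    rw [mem_pset] at hx hy
    simp only [pos, disjoint_singleton]
    intro h
    apply hne
    rw [hx, hy, h]
  · intro e _
    exact ⟨pe φ e, mem_image_of_mem _ (mem_univ _), by simp [pos, pe]⟩

omit [Fintype W] [DecidableRel ok] in
theorem path_card (φ : Path T ok) : (pset φ).card = T := by
  unfold pset
  rw [card_image_of_injective _ (pe_inj φ), card_univ, Fintype.card_fin]

omit [Fintype W] [DecidableRel ok] in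
theorem path_inj (hT : 1 ≤ T) : Function.Injective (pset (T := T) (ok := ok)) := by
  intro φ ψ h
  have key : ∀ i : Fin T, pe φ i = pe ψ i := by
    intro i
    have h1 : pe φ i ∈ pset ψ := by
      rw [← h]; exact mem_image_of_mem _ (mem_univ _)
    exact (mem_pset ψ _).mp h1
  apply Subtype.ext
  funext x
  rcases Nat.lt_or_ge x.1 T with hx | hx
  · have h2 := key ⟨x.1, hx⟩
    have h3 : φ.1 (Fin.castSucc ⟨x.1, hx⟩) = ψ.1 (Fin.castSucc ⟨x.1, hx⟩) :=
      congrArg (fun t : Edge T ok => t.1.2.1) h2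
    exact h3
  · have hlt := x.2
    have h2 := key ⟨T - 1, by omega⟩
    have h3 : φ.1 (Fin.succ ⟨T - 1, by omega⟩) = ψ.1 (Fin.succ ⟨T - 1, by omega⟩) :=
      congrArg (fun t : Edge T ok => t.1.2.2) h2
    have h4 : (Fin.succ ⟨T - 1, by omega⟩ : Fin (T + 1)) = x := by
      apply Fin.ext
      simp only [Fin.succ_mk]
      omega
    rw [h4] at h3
    exact h3

theorem path_sum {R : Type} [CommSemiring R] (hT : 1 ≤ T) (w : Edge T ok → R) :
    pathSum w = ∑ A ∈ univ.image (pset (T := T) (ok := ok)), ∏ x ∈ A, w x := by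
  rw [sum_image (fun a _ b _ h => path_inj hT h)]
  unfold pathSum pset
  refine sum_congr rfl fun φ _ => ?_
  rw [prod_image (fun a _ b _ h => pe_inj φ h)]

omit [Fintype W] [DecidableRel ok] in
/-- At a cut of the set of the columns the two paths meet. -/
theorem path_type {S : Set (Edge T ok → ℕ)}
    (hS : ∀ u ∈ S, ∃ χ : Path T ok, ∀ i, u (pe χ i) ≠ 0)
    (φ ψ : Path T ok) (Y Z : Finset (Edge T ok)) (hY : Y ⊆ pset φ)
    (hZ : Z ⊆ pset ψ) (hpos : Y.biUnion pos = Z.biUnion pos)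
    (h : ind (pset φ \ Y) + ind Z ∈ S) (l : ℕ) (hl : l + 1 < T)
    (hb : ((⟨l, by omega⟩ : Fin T) ∈ Y.biUnion pos ∧ (⟨l + 1, hl⟩ : Fin T) ∉ Y.biUnion pos) ∨
      ((⟨l, by omega⟩ : Fin T) ∉ Y.biUnion pos ∧ (⟨l + 1, hl⟩ : Fin T) ∈ Y.biUnion pos)) :
    φ.1 ⟨l + 1, by omega⟩ = ψ.1 ⟨l + 1, by omega⟩ := by
  obtain ⟨χ, hχ⟩ := hS _ h
  have hor : ∀ i, pe χ i ∈ pset φ \ Y ∨ pe χ i ∈ Z := by
    intro i
    by_contra hcon
    rw [not_or] at hcon
    apply hχ i
    simp only [Pi.add_apply, ind, if_neg hcon.1, if_neg hcon.2]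
  have hout : ∀ i, i ∉ Y.biUnion pos → pe χ i = pe φ i := by
    intro i hi
    rcases hor i with h1 | h1
    · exact (mem_pset φ _).mp (mem_sdiff.mp h1).1
    · exact absurd ((mem_biUnion_pos Z i).mpr ⟨_, h1, rfl⟩) (hpos ▸ hi)
  have hin : ∀ i, i ∈ Y.biUnion pos → pe χ i = pe ψ i := by
    intro i hi
    rcases hor i with h1 | h1
    · obtain ⟨y, hy, rfl⟩ := (mem_biUnion_pos Y i).mp hi
      have h2 : pe χ y.1.1 = pe φ y.1.1 := (mem_pset φ _).mp (mem_sdiff.mp h1).1
      have h3 : y = pe φ y.1.1 := (mem_pset φ _).mp (hY hy)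
      exfalso
      apply (mem_sdiff.mp h1).2
      rw [h2, ← h3]
      exact hy
    · exact (mem_pset ψ _).mp (hZ h1)
  rcases hb with ⟨ha, hc⟩ | ⟨ha, hc⟩
  · have h1 : χ.1 (Fin.succ ⟨l, by omega⟩) = ψ.1 (Fin.succ ⟨l, by omega⟩) :=
      congrArg (fun t : Edge T ok => t.1.2.2) (hin _ ha)
    have h2 : χ.1 (Fin.castSucc ⟨l + 1, hl⟩) = φ.1 (Fin.castSucc ⟨l + 1, hl⟩) :=
      congrArg (fun t : Edge T ok => t.1.2.1) (hout _ hc)
    exact h2.symm.trans h1
  · have h1 : χ.1 (Fin.succ ⟨l, by omega⟩) = φ.1 (Fin.succ ⟨l, by omega⟩) :=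
      congrArg (fun t : Edge T ok => t.1.2.2) (hout _ ha)
    have h2 : χ.1 (Fin.castSucc ⟨l + 1, hl⟩) = ψ.1 (Fin.castSucc ⟨l + 1, hl⟩) :=
      congrArg (fun t : Edge T ok => t.1.2.1) (hin _ hc)
    exact h1.symm.trans h2

end Pool.Agent.TH679.DB
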