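import Pool.Agent.TH679.DB.Rec
import Pool.Agent.TH679.DB.Lay
import Pool.Agent.TH679.PL.Main

/-!
The lower bound for programs which produce the paths through a layered graph of De Bruijn type
-/

set_option autoImplicit false

namespace Pool.Agent.TH679.DB

open Finset
open scoped NNReal
open Pool.Agent.H564R3.PW (Instr runs exec syms)
open Pool.Agent.H564R3.TS
open Pool.Agent.H564R3.SV (hist_exch pow_clog_le C_g C_cond good_trop_sum)
open Pool.Agent.TH679.PL (kap hist_comap exists_change)

/-- the words of `d` letters -/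
def Word (m d : ℕ) : Type := Fin d → Fin m

instance (m d : ℕ) : Fintype (Word m d) := inferInstanceAs (Fintype (Fin d → Fin m))

instance (m d : ℕ) : DecidableEq (Word m d) := inferInstanceAs (DecidableEq (Fin d → Fin m))

/-- The shift: `v` is `u` without the first letter, with a new last letter. -/
def Shift {m d : ℕ} (u v : Word m d) : Prop :=
  ∀ i j : Fin d, j.val = i.val + 1 → v i = u j

/-- a decision -/
def decShift {m d : ℕ} (u v : Fin d → Fin m) :
    Decidable (∀ i j : Fin d, j.val = i.val + 1 → v i = u j) := inferInstance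

instance {m d : ℕ} : DecidableRel (Shift (m := m) (d := d)) :=
  fun u v => decShift u v

/-- the path of a sequence of letters -/
def cp {m : ℕ} (T d : ℕ) (x : ℕ → Fin m) : Path T (Shift (m := m) (d := d)) :=
  ⟨fun c i => x (c.val + i.val), by
    intro c i j hij
    show x (c.val + 1 + i.val) = x (c.val + j.val)
    rw [hij]
    congr 1
    ring⟩

theorem law {R ρ : Type} [Zero R] [Fintype ρ] [DecidableEq ρ] {T d m n : ℕ} (hn : 1 ≤ n)
    (hm : 1 ≤ m) (hd : 1 ≤ d) (hT : d * n ≤ T)
    (p : List (Instr R (Edge T (Shift (m := m) (d := d))) ρ)) (o : ρ)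
    (g1 : ∀ A ∈ univ.image (pset (T := T) (ok := Shift (m := m) (d := d))), ind A ∈ syms p o)
    (g2 : ∀ u ∈ syms p o, ∃ A ∈ univ.image (pset (T := T) (ok := Shift (m := m) (d := d))),
      ∀ x ∈ A, u x ≠ 0)
    (hp : 1 ≤ p.length) :
    (m ^ d) ^ kap n ≤
      2 * p.length * ((Nat.clog 2 p.length + 1) * Fintype.card ρ) ^ kap n := by
  classical
  set H := Nat.clog 2 p.length with hH
  set κ := kap n with hκ
  have hHT : 2 ^ H ≤ 2 * p.length := pow_clog_le _ hp
  rcases Nat.lt_or_ge (m ^ d) ((H + 1) * Fintype.card ρ) with hlt | hge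
  · calc (m ^ d) ^ κ ≤ ((H + 1) * Fintype.card ρ) ^ κ := Nat.pow_le_pow_left hlt.le _
      _ = 1 * ((H + 1) * Fintype.card ρ) ^ κ := (one_mul _).symm
      _ ≤ _ := Nat.mul_le_mul_right _ (by omega)
  · set F := univ.image (pset (T := T) (ok := Shift (m := m) (d := d))) with hF
    have hT0 : 0 < T := by
      have : 0 < d * n := Nat.mul_pos hd hn
      omega
    have hFe : ∀ A ∈ F, Exact pos 1 univ A := by
      intro A hA
      rw [hF, mem_image] at hA
      obtain ⟨φ, _, rfl⟩ := hA
      exact path_exact φ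
    have hCov : Cov pos (syms p o) := by
      intro u hu e
      obtain ⟨A, hA, hAu⟩ := g2 u hu
      obtain ⟨x, hx, hex⟩ := (hFe A hA).cover e (mem_univ e)
      exact ⟨x, hAu x hx, hex⟩
    obtain ⟨z, hz, hex⟩ := hist_exch le_rfl p o hCov F hFe g1 (2 ^ H)
      (Nat.le_pow_clog (by norm_num) _)
    have c0 : Fin m := ⟨0, hm⟩
    have hmemF : ∀ φ : Path T (Shift (m := m) (d := d)), pset φ ∈ F :=
      fun φ => mem_image_of_mem _ (mem_univ φ)
    have hTp : ∀ u ∈ syms p o, ∃ χ : Path T (Shift (m := m) (d := d)), ∀ i, u (pe χ i) ≠ 0 := by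
      intro u hu
      obtain ⟨A, hA, hAu⟩ := g2 u hu
      rw [hF, mem_image] at hA
      obtain ⟨χ, _, rfl⟩ := hA
      exact ⟨χ, fun i => hAu _ (mem_image_of_mem _ (mem_univ i))⟩
    -- the letters, the paths and the markers
    set lab : (Fin (d * n) → Fin m) → ℕ → Fin m :=
      fun ω g => if h : g < d * n then ω ⟨g, h⟩ else c0 with hlab
    obtain ⟨P, hP⟩ : ∃ P : (Fin (d * n) → Fin m) → Path T (Shift (m := m) (d := d)),
      ∀ ω, P ω = cp T d (lab ω) := ⟨fun ω => cp T d (lab ω), fun _ => rfl⟩
    obtain ⟨col, hcol⟩ : ∃ col : ℕ → Fin T, ∀ l < n, (col l).val = d * l := by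
      refine ⟨fun l => ⟨(d * l) % T, Nat.mod_lt _ hT0⟩, fun l hl => ?_⟩
      have h1 : d * l < d * n := Nat.mul_lt_mul_of_pos_left hl hd
      exact Nat.mod_eq_of_lt (by omega)
    set J : (Fin (d * n) → Fin m) → ℕ → ρ → Finset ℕ :=
      fun ω t i => (range n).filter (fun l => pe (P ω) (col l) ∈ z (pset (P ω)) t i) with hJ
    have hJmem : ∀ ω t i, t ≤ 2 ^ H → ∀ l, l ∈ J ω t i ↔
        l < n ∧ col l ∈ (z (pset (P ω)) t i).biUnion pos := by
      intro ω t i ht l
      rw [hJ]
      simp only [mem_filter, mem_range]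
      rw [mem_biUnion_sub ((hz _ (hmemF (P ω))).1.sub t ht i)]
    have hJhist : ∀ ω ∈ (univ : Finset (Fin (d * n) → Fin m)),
        Hist (2 ^ H) (range n) (J ω) := by
      intro ω _
      refine hist_comap (n := n) (hz _ (hmemF (P ω))).1 (fun l => pe (P ω) (col l)) ?_
      intro l hl l' hl' h
      have h1 : col l = col l' := pe_inj (P ω) h
      have h2 := congrArg Fin.val h1
      rw [hcol l hl, hcol l' hl'] at h2
      exact Nat.eq_of_mul_eq_mul_left hd h2
    have hJne : ∀ ω t i, (J ω t i).Nonempty → (z (pset (P ω)) t i).Nonempty := by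
      rintro ω t i ⟨l, hl⟩
      exact ⟨_, (mem_filter.1 hl).2⟩
    have hK : 1 ≤ Fintype.card ρ := Fintype.card_pos_iff.2 ⟨o⟩
    have hc := rec_db (d := d) hm univ lab J hJhist (by
        intro ω _ ω' _ t ht i h1 h2
        obtain ⟨h3, _⟩ := hex _ (hmemF (P ω)) _ (hmemF (P ω')) t ht i (hJne _ _ _ h1)
          (hJne _ _ _ h2)
        ext l
        rw [hJmem ω t i ht, hJmem ω' t i ht, h3]) (by
        intro ω _ t ht i hne l hl1 hln hcut
        -- the predicate on the columns
        have hchg := exists_change (fun c => ∃ hc : c < T,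
          (⟨c, hc⟩ : Fin T) ∈ (z (pset (P ω)) t i).biUnion pos)
          (u := d * (l - 1)) (v := d * l) (Nat.mul_le_mul_left _ (by omega)) (by
            have hiff : ∀ l' < n, (l' ∈ J ω t i ↔ ∃ hc : d * l' < T,
                (⟨d * l', hc⟩ : Fin T) ∈ (z (pset (P ω)) t i).biUnion pos) := by
              intro l' hl'
              rw [hJmem ω t i ht]
              have h1 : d * l' < T := by
                have := (col l').2
                rw [hcol l' hl'] at this
                exact this
              have h2 : col l' = ⟨d * l', h1⟩ := Fin.ext (hcol l' hl')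
              rw [h2]
              constructor
              · rintro ⟨_, h3⟩; exact ⟨h1, h3⟩
              · rintro ⟨_, h3⟩; exact ⟨hl', h3⟩
            rw [← hiff (l - 1) (by omega), ← hiff l hln]
            rcases hcut with ⟨h1, h2⟩ | ⟨h1, h2⟩
            · exact fun h => h2 (h.1 h1)
            · exact fun h => h1 (h.2 h2))
        obtain ⟨e, he1, he2, he3⟩ := hchg
        have hlT : d * l < T := by
          have h1 : d * l < d * n := Nat.mul_lt_mul_of_pos_left hln hd
          omega
        have heT : e + 1 < T := by omega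
        have hcut' : ((⟨e, by omega⟩ : Fin T) ∈ (z (pset (P ω)) t i).biUnion pos ∧
            (⟨e + 1, heT⟩ : Fin T) ∉ (z (pset (P ω)) t i).biUnion pos) ∨
            ((⟨e, by omega⟩ : Fin T) ∉ (z (pset (P ω)) t i).biUnion pos ∧
            (⟨e + 1, heT⟩ : Fin T) ∈ (z (pset (P ω)) t i).biUnion pos) := by
          by_cases h1 : (⟨e, by omega⟩ : Fin T) ∈ (z (pset (P ω)) t i).biUnion pos <;>
            by_cases h2 : (⟨e + 1, heT⟩ : Fin T) ∈ (z (pset (P ω)) t i).biUnion pos
          · exact absurd (iff_of_true ⟨by omega, h1⟩ ⟨heT, h2⟩) he3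
          · exact Or.inl ⟨h1, h2⟩
          · exact Or.inr ⟨h1, h2⟩
          · refine absurd (iff_of_false ?_ ?_) he3
            · rintro ⟨_, h3⟩; exact h1 h3
            · rintro ⟨_, h3⟩; exact h2 h3
        refine ⟨e, he1, he2, fun ω' _ hne' g hg1 hg2 => ?_⟩
        obtain ⟨h3, h4⟩ := hex _ (hmemF (P ω)) _ (hmemF (P ω')) t ht i (hJne _ _ _ hne)
          (hJne _ _ _ hne')
        have h5 := path_type hTp (P ω) (P ω') _ _ ((hz _ (hmemF (P ω))).1.sub t ht i)
          ((hz _ (hmemF (P ω'))).1.sub t ht i) h3 h4 e heT hcut'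
        have h6 := congrFun h5 ⟨g - (e + 1), by omega⟩
        rw [hP, hP] at h6
        have h7 : ∀ ω'', (cp T d (lab ω'')).1 ⟨e + 1, by omega⟩ ⟨g - (e + 1), by omega⟩ =
            lab ω'' g := by
          intro ω''
          show lab ω'' (e + 1 + (g - (e + 1))) = lab ω'' g
          congr 1
          omega
        rw [h7, h7] at h6
        exact h6.symm) hK H hge n 0 0 univ (by omega) (by omega) (by
        intro ω _
        refine ⟨mem_univ _, o, ?_, fun j => ?_⟩
        · intro l hl
          rw [mem_Ico, zero_add] at hl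
          rw [zero_add]
          refine mem_filter.2 ⟨mem_range.2 hl.2, ?_⟩
          rw [(hz _ (hmemF (P ω))).2]
          exact mem_image_of_mem _ (mem_univ _)
        · rw [(hJhist ω (mem_univ _)).zero j]
          exact disjoint_empty_left _)
    have himg : ((univ : Finset (Fin (d * n) → Fin m)).image
        (C_g lab (Ico (d * 0) (d * (0 + n))))).card = (m ^ d) ^ n := by
      rw [card_image_of_injective, card_univ, Fintype.card_fun, Fintype.card_fin, Fintype.card_fin,
        pow_mul]
      intro ω ω' h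
      funext g
      have h1 : (g.val, lab ω g.val) ∈ C_g lab (Ico (d * 0) (d * (0 + n))) ω' := by
        rw [← h]
        refine mem_image.2 ⟨g.val, mem_Ico.2 ⟨by omega, ?_⟩, rfl⟩
        have := g.2
        rw [zero_add]
        exact this
      obtain ⟨l', _, h2⟩ := mem_image.1 h1
      rw [Prod.mk.injEq] at h2
      have h3 := h2.2
      rw [h2.1, hlab] at h3
      simp only [g.2, dif_pos] at h3
      exact h3.symm
    rw [himg] at hc
    have hpos : 0 < (m ^ d) ^ n := Nat.pow_pos (Nat.pow_pos hm)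
    have h6 : (m ^ d) ^ κ ≤ 2 ^ H * ((H + 1) * Fintype.card ρ) ^ κ := by
      refine Nat.le_of_mul_le_mul_right (c := (m ^ d) ^ n) ?_ hpos
      rw [mul_comm ((m ^ d) ^ κ)]
      exact hc
    exact h6.trans (Nat.mul_le_mul_right _ hHT)

section Solves

variable {W : Type} [Fintype W] [DecidableEq W] {T : ℕ} {ok : W → W → Prop} [DecidableRel ok]

/-- The (min,+) program `p`, whose constants are real numbers or infinity, writes into register `o`
the length of a shortest path from the first to the last column, for all weights in the natural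
numbers. -/
def SolvesMin {ρ : Type} [DecidableEq ρ]
    (p : List (Instr (Tropical (WithTop ℝ)) (Edge T ok) ρ)) (o : ρ) : Prop :=
  ∀ w : Edge T ok → ℕ,
    exec (fun x => Tropical.trop (((w x : ℕ) : ℝ) : WithTop ℝ)) p o =
      pathSum (fun x => Tropical.trop (((w x : ℕ) : ℝ) : WithTop ℝ))

/-- The program `p` over the nonnegative reals computes the sum over all paths from the first to
the last column of the products of the weights. -/
def SolvesSum {ρ : Type} [DecidableEq ρ]
    (p : List (Instr ℝ≥0 (Edge T ok) ρ)) (o : ρ) : Prop :=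
  ∀ w : Edge T ok → ℝ≥0, exec w p o = pathSum w

end Solves

theorem lawMin {T d m n : ℕ} (hn : 1 ≤ n) (hm : 1 ≤ m) (hd : 1 ≤ d) (hT : d * n ≤ T)
    {ρ : Type} [Fintype ρ] [DecidableEq ρ]
    (p : List (Instr (Tropical (WithTop ℝ)) (Edge T (Shift (m := m) (d := d))) ρ)) (o : ρ)
    (h : SolvesMin p o) : 1 ≤ p.length ∧ (m ^ d) ^ kap n ≤
      2 * p.length * ((Nat.clog 2 p.length + 1) * Fintype.card ρ) ^ kap n := by
  have hT1 : 1 ≤ T := by
    have : 0 < d * n := Nat.mul_pos hd hn
    omega
  have φ₀ : Path T (Shift (m := m) (d := d)) := cp T d (fun _ => ⟨0, hm⟩)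
  have hne : (univ.image (pset (T := T) (ok := Shift (m := m) (d := d)))).Nonempty :=
    ⟨pset φ₀, mem_image_of_mem _ (mem_univ _)⟩
  have hcard : ∀ A ∈ univ.image (pset (T := T) (ok := Shift (m := m) (d := d))), A.card = T := by
    intro A hA
    rw [mem_image] at hA
    obtain ⟨φ, _, rfl⟩ := hA
    exact path_card φ
  obtain ⟨g1, g2⟩ := good_trop_sum _ hne T hcard p o (by
    intro w
    rw [h w, path_sum hT1])
  have hp : 1 ≤ p.length := by
    rcases p with _ | ⟨a, l⟩
    · have h1 := g1 _ (mem_image_of_mem (pset (T := T) (ok := Shift (m := m) (d := d)))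
        (mem_univ φ₀))
      have h2 : syms ([] : List (Instr (Tropical (WithTop ℝ))
        (Edge T (Shift (m := m) (d := d))) ρ)) o = ∅ := rfl
      rw [h2] at h1
      exact absurd h1 (Set.notMem_empty _)
    · simp
  exact ⟨hp, law hn hm hd hT p o g1 g2 hp⟩

theorem lawSum {T d m n : ℕ} (hn : 1 ≤ n) (hm : 1 ≤ m) (hd : 1 ≤ d) (hT : d * n ≤ T)
    {ρ : Type} [Fintype ρ] [DecidableEq ρ]
    (p : List (Instr ℝ≥0 (Edge T (Shift (m := m) (d := d))) ρ)) (o : ρ) (h : SolvesSum p o) :
    1 ≤ p.length ∧ (m ^ d) ^ kap n ≤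
      2 * p.length * ((Nat.clog 2 p.length + 1) * Fintype.card ρ) ^ kap n := by
  have hT1 : 1 ≤ T := by
    have : 0 < d * n := Nat.mul_pos hd hn
    omega
  have φ₀ : Path T (Shift (m := m) (d := d)) := cp T d (fun _ => ⟨0, hm⟩)
  have hcard : ∀ A ∈ univ.image (pset (T := T) (ok := Shift (m := m) (d := d))), A.card = T := by
    intro A hA
    rw [mem_image] at hA
    obtain ⟨φ, _, rfl⟩ := hA
    exact path_card φ
  obtain ⟨g1, g2⟩ := good_nn _ T hcard p o (by
    intro w
    rw [h w, path_sum hT1])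
  have hp : 1 ≤ p.length := by
    rcases p with _ | ⟨a, l⟩
    · have h1 := g1 _ (mem_image_of_mem (pset (T := T) (ok := Shift (m := m) (d := d)))
        (mem_univ φ₀))
      have h2 : syms ([] : List (Instr ℝ≥0 (Edge T (Shift (m := m) (d := d))) ρ)) o = ∅ := rfl
      rw [h2] at h1
      exact absurd h1 (Set.notMem_empty _)
    · simp
  exact ⟨hp, law hn hm hd hT p o g1 g2 hp⟩

end Pool.Agent.TH679.DB
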